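import Pool.Agent.V1143.Ord.Real

/-!
# Ordinary reduction in all degrees at the same time: explicit densities

`K₀` is a number field and `X` a smooth projective variety over `K₀`; `F j v₀` is the characteristic
polynomial of Frobenius on `H ^ j`, for `j` in a finite index set `J` (all degrees `0 ≤ j ≤ 2 dim X`).
Over a finite extension `K` of `K₀` each `H ^ j` is a direct sum of `m j i` copies of pieces `A i` (of
weight `j`, Tate twists being allowed) with multiplication by totally real or CM fields `(A i).E`, with
connected `ℓ`-adic monodromy groups over `K` for one prime `ℓ`.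

Theorem.

1. (No orbit condition.) At a set of places `v` of `K` of density one the following holds for all `A i`
   whose Hodge polygon has a vertex, all `0 < k < n i` and all maximal ideals `Q` above `v` of the ring
   of all algebraic integers: if the coefficient of index `n - k` of the `σ`-part of the Frobenius
   polynomial is divisible at `Q` by `p ^ (hp σ k + e σ)` for all embeddings `σ`, then
   `2 * Σ e σ < defect k = Σ (w k - 2 hp σ k)`.
2. The places `v₀` of `K₀` such that for all `j` the Newton polygon of `F j v₀` is the Hodge polygon of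
   `H ^ j` have lower density at least `admProportion A / [K : K₀]`, where `admProportion A` is the
   proportion of the elements of the finite Galois group of the fields of multiplications which satisfy
   the orbit condition for all `i`.
3. If the defects at all vertices are at most `2`, the places of `K` above such places have density one,
   and such places of `K₀` have lower density at least `1 / [K : K₀]`.

(By theorems of Mazur, Bloch-Kato and Illusie-Raynaud the reduction of `X` at almost all places `v₀` is
ordinary if and only if in all degrees the Newton polygon is the Hodge polygon.)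
-/

set_option autoImplicit false

namespace Pool.Agent.Results.MP_17d720_ag.AllDegrees

open NumberField IsDedekindDomain Polynomial Filter Topology
open Pool.Agent.W401.Cheb Pool.Agent.W528.Ord Pool.Agent.V1143.Ord
open Pool.Agent.W528.Ord.MultSystem (IsDeg1)

theorem result (K₀ K : Type) [Field K₀] [NumberField K₀] [Field K] [NumberField K] [Algebra K₀ K]
    (ℓ : ℕ) [Fact ℓ.Prime] {ι : Type} [Fintype ι]
    -- the pieces `A i` over `K`
    (A : ι → MotSystem K ℓ) (χ : GK K →* (PadicAlgCl ℓ)ˣ) (S : Finset ℕ)
    (hA : ∀ i, (A i).IsMotive χ S)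
    -- the cohomology in the degrees `j`
    {J : Type} (m : J → ι → ℕ) (F : J → HeightOneSpectrum (𝓞 K₀) → ℤ[X])
    (hF : ∀ j, Decomposes A (m j) S (F j)) :
    -- 1. the total excess is smaller than half the defect, at a set of places of `K` of density one
    Tendsto (ratio fun v : HeightOneSpectrum (𝓞 K) => IsDeg1 S v ∧
      ∀ i, (∃ (σ : (A i).E →+* AlgebraicClosure K) (k : ℕ), (A i).Vertex σ k) →
        SmallExcess (A i) v) atTop (𝓝 1) ∧
    -- 2. explicit lower density
    (MotSystem.admProportion A / (Module.finrank K₀ K : ℝ) ≤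
      lowerDensity fun v₀ : HeightOneSpectrum (𝓞 K₀) => IsDeg1 S v₀ ∧
        ∀ j, NewtonSlopes (Ideal.absNorm v₀.asIdeal) (F j v₀) (MotSystem.slopes A (m j))) ∧
    -- 3. defects at most two
    ((∀ i (σ : (A i).E →+* AlgebraicClosure K) (k : ℕ), (A i).Vertex σ k → (A i).defect k ≤ 2) →
      Tendsto (ratio fun v : HeightOneSpectrum (𝓞 K) => ∃ v₀ : HeightOneSpectrum (𝓞 K₀),
        v.asIdeal.comap (algebraMap (𝓞 K₀) (𝓞 K)) = v₀.asIdeal ∧ IsDeg1 S v₀ ∧
        ∀ j, NewtonSlopes (Ideal.absNorm v₀.asIdeal) (F j v₀) (MotSystem.slopes A (m j)))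
        atTop (𝓝 1) ∧
      1 / (Module.finrank K₀ K : ℝ) ≤ lowerDensity fun v₀ : HeightOneSpectrum (𝓞 K₀) => IsDeg1 S v₀ ∧
        ∀ j, NewtonSlopes (Ideal.absNorm v₀.asIdeal) (F j v₀) (MotSystem.slopes A (m j))) := by
  have key : ∀ v : HeightOneSpectrum (𝓞 K), AdmPlace A S v →
      ∃ v₀ : HeightOneSpectrum (𝓞 K₀), v.asIdeal.comap (algebraMap (𝓞 K₀) (𝓞 K)) = v₀.asIdeal ∧
        IsDeg1 S v₀ ∧
        ∀ j, NewtonSlopes (Ideal.absNorm v₀.asIdeal) (F j v₀) (MotSystem.slopes A (m j)) := by
    intro v hv
    obtain ⟨v₀, h0, -⟩ := exists_under (K₀ := K₀) v hv.1.1.1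
    exact ⟨v₀, h0, deg1_under hv.1.1 h0, fun j => newton_under χ hA hv h0 (m j) (F j) (hF j)⟩
  have hdown : MotSystem.admProportion A / (Module.finrank K₀ K : ℝ) ≤
      lowerDensity fun v₀ : HeightOneSpectrum (𝓞 K₀) => IsDeg1 S v₀ ∧
        ∀ j, NewtonSlopes (Ideal.absNorm v₀.asIdeal) (F j v₀) (MotSystem.slopes A (m j)) :=
    lower_down χ hA _ (fun v v₀ hv h0 =>
      ⟨deg1_under hv.1.1 h0, fun j => newton_under χ hA hv h0 (m j) (F j) (hF j)⟩)
  refine ⟨good_ratio χ hA, hdown, fun hdef => ⟨ratio_up χ hA hdef _ key, ?_⟩⟩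
  rw [prop_one (K := K) hdef] at hdown
  exact hdown

end Pool.Agent.Results.MP_17d720_ag.AllDegrees
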