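import Pool.Agent.V11263.PCu.OrdK

/-!
# Most members of a family of hyperelliptic Jacobians have many primes of ordinary reduction

`K` is a number field of degree `D`. For finitely many `i` let `l_{ij}`, `j = 1, …, 2 g_i`, be distinct integers of `K`;
for an integer `ω` of `K` let `C_{i, ω}` be the hyperelliptic curve `y² = (x - ω) ∏_j (x - l_{ij})` of genus `g_i`, and
`A_ω` the product of the Jacobians of the `C_{i, ω}`, of dimension `G = ∑ g_i` (for one curve the Jacobian of
`y² = (x - ω) ∏_j (x - l_j)`, `G` its genus).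

Let `0 < β ≤ 1` and `θ > G / (2 β ^ 2)`. Of the integers `ω` of `K` with all conjugates at most `X` in absolute value,
whose number is at least `X ^ D / C`, at most `C X ^ θ` are such that the prime ideals `P` over the primes `p ≤ X ^ θ` at
which `A_ω` has good ordinary reduction have weighted proportion at most `1 - β` (with the weights `log N(P) / p`).
So, if `D > G / 2`, for all `ω` with few exceptions more than the proportion `1 - √(G / (2 D)) - ε` of the prime ideals
over the primes up to `X ^ θ`, for some `θ < D`, are primes of good ordinary reduction of `A_ω`.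
-/

set_option autoImplicit false

namespace Pool.Agent.Results.MP_17d720_ag.OrdinaryInFamilies

open Finset NumberField Ideal Polynomial

/-- The Hasse-Witt (Cartier-Manin) matrix of `y² = f(x)`: the entry with indices `i, j` (from `0`) is the coefficient of
`x ^ (p (i + 1) - (j + 1))` in `f ^ ((p - 1) / 2)`, written as the coefficient of `x ^ (p (i + 1))` in
`x ^ (j + 1) f ^ ((p - 1) / 2)`. For `f` squarefree of degree `2 g + 1` over a field of characteristic `p > 2` the curve
is ordinary if and only if this matrix is invertible. -/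
noncomputable def hasseWitt {R : Type*} [CommRing R] (p g : ℕ) (f : R[X]) : Matrix (Fin g) (Fin g) R :=
  Matrix.of fun i j => (X ^ ((j : ℕ) + 1) * f ^ ((p - 1) / 2)).coeff (p * ((i : ℕ) + 1))

variable {K : Type} [Field K] [NumberField K] {ι : Type} [Fintype ι]

/-- The prime ideal `P` over the odd prime `p` is a prime of good ordinary reduction of all the curves
`y² = (x - ω) ∏_j (x - l_{ij})`: the zeros of the right hand sides stay distinct modulo `P`, and the Hasse-Witt matrices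
modulo `P` are invertible. -/
def GoodOrdinary (g : ι → ℕ) (l : ∀ i, Fin (2 * g i) → 𝓞 K) (p : ℕ) (P : Ideal (𝓞 K)) (ω : 𝓞 K) : Prop :=
  ∀ i, (Function.Injective fun j => Ideal.Quotient.mk P (l i j)) ∧
    (∀ j, Ideal.Quotient.mk P ω ≠ Ideal.Quotient.mk P (l i j)) ∧
    (hasseWitt p (g i) ((X - C (Ideal.Quotient.mk P ω)) * ∏ j, (X - C (Ideal.Quotient.mk P (l i j))))).det ≠ 0

/-- The prime ideals of the ring of integers of `K` over `p`. -/
noncomputable def primesOver (K : Type) [Field K] [NumberField K] (p : ℕ) : Finset (Ideal (𝓞 K)) :=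
  IsDedekindDomain.primesOverFinset (Ideal.span {(p : ℤ)}) (𝓞 K)

/-- The sum of `log N(P) / p` over all prime ideals `P` over primes `2 < p ≤ Y` (it is `[K : ℚ] log Y + O(1)`). -/
noncomputable def allSum (K : Type) [Field K] [NumberField K] (Y : ℝ) : ℝ :=
  ∑ p ∈ Icc 1 ⌊Y⌋₊ with p.Prime ∧ 2 < p, ∑ P ∈ primesOver K p, Real.log (absNorm P) / p

open Classical in
/-- The sum of `log N(P) / p` over the prime ideals `P` over primes `2 < p ≤ Y` of good ordinary reduction. -/
noncomputable def ordSum (g : ι → ℕ) (l : ∀ i, Fin (2 * g i) → 𝓞 K) (ω : 𝓞 K) (Y : ℝ) : ℝ :=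
  ∑ p ∈ Icc 1 ⌊Y⌋₊ with p.Prime ∧ 2 < p,
    ∑ P ∈ primesOver K p with GoodOrdinary g l p P ω, Real.log (absNorm P) / p

theorem result (K : Type) [Field K] [NumberField K] (ι : Type) [Fintype ι] (g : ι → ℕ) (hg : ∀ i, 1 ≤ g i)
    (l : ∀ i, Fin (2 * g i) → 𝓞 K) (hl : ∀ i, Function.Injective (l i)) (β θ L : ℝ) (hβ0 : 0 < β) (hβ1 : β ≤ 1)
    (hθ : ((∑ i, g i : ℕ) : ℝ) < 2 * β ^ 2 * θ) :
    ∃ C : ℝ, ∀ X : ℝ, 2 ≤ X →
      (Set.ncard {ω : 𝓞 K | (∀ σ : K →+* ℂ, ‖σ ω‖ ≤ X) ∧
        ordSum g l ω (X ^ θ) ≤ (1 - β) * allSum K (X ^ θ) + L} : ℝ) ≤ C * X ^ θ ∧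
      X ^ Module.finrank ℚ K ≤ C * (Set.ncard {ω : 𝓞 K | ∀ σ : K →+* ℂ, ‖σ ω‖ ≤ X} : ℝ) := by
  classical
  have hθ0 : 0 < θ := by
    have h1 : (0 : ℝ) ≤ ((∑ i, g i : ℕ) : ℝ) := Nat.cast_nonneg _
    have h2 : 0 < 2 * β ^ 2 * θ := lt_of_le_of_lt h1 hθ
    exact (pos_iff_pos_of_mul_pos h2).1 (by positivity)
  obtain ⟨C₁, hC₁⟩ := V11263.PCu.all_le K
  obtain ⟨C, hC⟩ := V11263.PCu.ord_sieve g hg l hl (L + (1 - β) * C₁) hβ0 hβ1 hθ0 hθ
  obtain ⟨c, hc0, hc⟩ := V11263.PCu.house_count K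
  refine ⟨max C (1 / c), fun X hX => ⟨?_, ?_⟩⟩
  · have hXθ : 1 ≤ X ^ θ := Real.one_le_rpow (by linarith) hθ0.le
    have hall : allSum K (X ^ θ) ≤ Module.finrank ℚ K * θ * Real.log X + C₁ := by
      have h1 := hC₁ (X ^ θ) hXθ
      rw [Real.log_rpow (by linarith), ← mul_assoc] at h1
      exact h1
    have h2 := hC X hX
    refine le_trans (le_trans ?_ h2) (mul_le_mul_of_nonneg_right (le_max_left _ _) (by linarith))
    refine Nat.cast_le.2 (Set.ncard_le_ncard ?_ ((V11263.PCu.fin_house X).subset fun a ha => ha.1))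
    rintro ω ⟨h3, h4⟩
    refine ⟨h3, le_trans h4 ?_⟩
    have h5 := mul_le_mul_of_nonneg_left hall (by linarith : 0 ≤ 1 - β)
    linarith
  · have h1 := hc X (by linarith)
    have h2 : X ^ Module.finrank ℚ K ≤ (1 / c) * (Set.ncard {ω : 𝓞 K | ∀ σ : K →+* ℂ, ‖σ ω‖ ≤ X} : ℝ) := by
      rw [one_div, inv_mul_eq_div, le_div_iff₀ hc0, mul_comm]
      exact h1
    exact h2.trans (mul_le_mul_of_nonneg_right (le_max_right _ _) (Nat.cast_nonneg _))

end Pool.Agent.Results.MP_17d720_ag.OrdinaryInFamilies
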